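import Pool.Agent.helper32.EX.SpecD

set_option autoImplicit false
set_option linter.unusedVariables false
set_option linter.unusedSectionVars false

namespace Pool.Agent.EX

theorem UFX (hDM2 : DM2_stmt) (hRCM : RCM_stmt) (hXEF : XEF_stmt) : UFX_stmt := by
  intro n C hC F _ θ hθ
  have hpos : ∀ α : Rt C, Pos α → 0 ≤ Q C α.1 θ.1 := by
    intro α hα
    rw [Q_comm]
    exact (hDM2 C θ hθ).2 α hα
  constructor
  · intro u hu
    induction hu using Subgroup.closure_induction with
    | mem g hg =>
      obtain ⟨α, t, hα, rfl⟩ := hg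
      rw [xl_apply, ← hXEF C F α t, ex, br_ev_zero (hpos α hα), fo_ev, ev_snd, if_neg]
      · simp
      · intro h
        have h1 := hpos α hα
        rw [← h, Q_neg_self] at h1
        omega
    | one => rfl
    | mul g h _ _ hg hh =>
      rw [LinearEquiv.mul_apply, hh, hg]
    | inv g _ hg =>
      have h1 : g⁻¹ (g (ev C θ 1)) = ev C θ 1 := by
        rw [← LinearEquiv.mul_apply, inv_mul_cancel]
        rfl
      rw [hg] at h1
      exact h1
  · intro u hu t
    induction hu using Subgroup.closure_induction with
    | mem g hg =>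
      obtain ⟨α, s, hα, rfl⟩ := hg
      exact (hRCM C F α θ s t).2 (hpos α hα)
    | one => rw [one_mul, mul_one]
    | mul g h _ _ hg hh =>
      rw [mul_assoc, hh, ← mul_assoc, hg, mul_assoc]
    | inv g _ hg =>
      rw [inv_mul_eq_iff_eq_mul, ← mul_assoc, hg, mul_assoc, mul_inv_cancel, mul_one]

end Pool.Agent.EX

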